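import Mathlib

/-! The graph `H_k`: the `1`-subdivision of `K_k` together with one vertex joined to all branch
vertices, and a criterion for containing it. -/

set_option autoImplicit false

namespace Pool.Agent.Helper181_LK

open Finset SimpleGraph

/-- `H_k`: the vertex `x = inl ()` is joined to the vertices `y_i = inr (inl i)`, `i < k`; for each
pair `p` of indices the vertex `z_p = inr (inr p)` is joined to the two `y_i` with `i ∈ p`. -/
def LK (k : ℕ) : SimpleGraph (Unit ⊕ (Fin k ⊕ {p : Finset (Fin k) // p.card = 2})) :=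
  SimpleGraph.fromRel
    (fun a b : Unit ⊕ (Fin k ⊕ {p : Finset (Fin k) // p.card = 2}) =>
      (a = Sum.inl () ∧ ∃ i : Fin k, b = Sum.inr (Sum.inl i)) ∨
      (∃ (i : Fin k) (p : {p : Finset (Fin k) // p.card = 2}),
        a = Sum.inr (Sum.inl i) ∧ b = Sum.inr (Sum.inr p) ∧ i ∈ p.1))

theorem LK_adj_xy (k : ℕ) (i : Fin k) : (LK k).Adj (Sum.inl ()) (Sum.inr (Sum.inl i)) := by
  refine ⟨by simp, Or.inl (Or.inl ⟨rfl, i, rfl⟩)⟩

theorem LK_adj_yz (k : ℕ) (i : Fin k) (p : {p : Finset (Fin k) // p.card = 2}) (h : i ∈ p.1) :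
    (LK k).Adj (Sum.inr (Sum.inl i)) (Sum.inr (Sum.inr p)) := by
  refine ⟨by simp, Or.inl (Or.inr ⟨i, p, rfl, rfl, h⟩)⟩

/-- Containing `H_k` from explicit vertices. -/
theorem LK_contained {V : Type*} (G : SimpleGraph V) (k : ℕ) (x : V) (y : Fin k → V)
    (z : {p : Finset (Fin k) // p.card = 2} → V)
    (hxy : ∀ i, G.Adj x (y i)) (hyz : ∀ i p, i ∈ p.1 → G.Adj (y i) (z p))
    (hy : Function.Injective y) (hz : Function.Injective z) (hxz : ∀ p, x ≠ z p)
    (hyz' : ∀ i p, y i ≠ z p) : LK k ⊑ G := by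
  let f : Unit ⊕ (Fin k ⊕ {p : Finset (Fin k) // p.card = 2}) → V := fun v => match v with
    | Sum.inl _ => x
    | Sum.inr (Sum.inl i) => y i
    | Sum.inr (Sum.inr p) => z p
  have hadj : ∀ a b : Unit ⊕ (Fin k ⊕ {p : Finset (Fin k) // p.card = 2}),
      ((a = Sum.inl () ∧ ∃ i : Fin k, b = Sum.inr (Sum.inl i)) ∨
      (∃ (i : Fin k) (p : {p : Finset (Fin k) // p.card = 2}),
        a = Sum.inr (Sum.inl i) ∧ b = Sum.inr (Sum.inr p) ∧ i ∈ p.1)) → G.Adj (f a) (f b) := by
    rintro a b (⟨rfl, i, rfl⟩ | ⟨i, p, rfl, rfl, h⟩)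
    · exact hxy i
    · exact hyz i p h
  refine ⟨⟨⟨f, ?_⟩, ?_⟩⟩
  · intro a b hab
    rcases hab with ⟨_, h | h⟩
    · exact hadj a b h
    · exact (hadj b a h).symm
  · intro a b hab
    change f a = f b at hab
    rcases a with a | a | a <;> rcases b with b | b | b <;> simp only [f] at hab
    · rfl
    · exact absurd hab (hxy b).ne
    · exact absurd hab (hxz b)
    · exact absurd hab.symm (hxy a).ne
    · rw [hy hab]
    · exact absurd hab (hyz' a b)
    · exact absurd hab.symm (hxz a)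
    · exact absurd hab.symm (hyz' b a)
    · rw [hz hab]

/-- `G` has no `H_3` (the cube minus a vertex), in explicit form. -/
def NoL3 {V : Type*} (G : SimpleGraph V) : Prop :=
  ∀ x y1 y2 y3 z12 z13 z23 : V, G.Adj x y1 → G.Adj x y2 → G.Adj x y3 →
    G.Adj y1 z12 → G.Adj y2 z12 → G.Adj y1 z13 → G.Adj y3 z13 → G.Adj y2 z23 → G.Adj y3 z23 →
    y1 ≠ y2 → y1 ≠ y3 → y2 ≠ y3 → z12 ≠ z13 → z12 ≠ z23 → z13 ≠ z23 →
    x ≠ z12 → x ≠ z13 → x ≠ z23 → y3 ≠ z12 → y2 ≠ z13 → y1 ≠ z23 → False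

theorem noL3_of_free {V : Type*} (G : SimpleGraph V) (h : (LK 3).Free G) : NoL3 G := by
  intro x y1 y2 y3 z12 z13 z23 h1 h2 h3 a1 a2 a3 a4 a5 a6 d1 d2 d3 e1 e2 e3 f1 f2 f3 g1 g2 g3
  apply h
  let y : Fin 3 → V := ![y1, y2, y3]
  let zz : Fin 3 → V := ![z23, z13, z12]
  let m : {p : Finset (Fin 3) // p.card = 2} → Fin 3 := fun p =>
    if (0 : Fin 3) ∉ p.1 then 0 else if (1 : Fin 3) ∉ p.1 then 1 else 2
  have hm : Function.Injective m := by
    intro p q
    revert p q
    decide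
  have hm2 : ∀ p : {p : Finset (Fin 3) // p.card = 2}, ∀ i : Fin 3, i ∈ p.1 → i ≠ m p := by
    decide
  have hzz : Function.Injective zz := by
    intro i j hij
    fin_cases i <;> fin_cases j <;> simp [zz] at hij ⊢ <;>
      first | exact e1 hij | exact e2 hij | exact e3 hij | exact e1 hij.symm |
        exact e2 hij.symm | exact e3 hij.symm
  refine LK_contained G 3 x y (fun p => zz (m p)) ?_ ?_ ?_ (hzz.comp hm) ?_ ?_
  · intro i; fin_cases i <;> simp [y, h1, h2, h3]
  · intro i p hi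
    have h := hm2 p i hi
    generalize m p = j at h
    fin_cases i <;> fin_cases j <;> simp [y, zz, a1, a2, a3, a4, a5, a6] at h ⊢
  · intro i j hij
    fin_cases i <;> fin_cases j <;> simp [y] at hij ⊢ <;>
      first | exact d1 hij | exact d2 hij | exact d3 hij | exact d1 hij.symm |
        exact d2 hij.symm | exact d3 hij.symm
  · intro p
    generalize m p = j
    fin_cases j <;> simp [zz, f1, f2, f3]
  · intro i p
    generalize m p = j
    fin_cases i <;> fin_cases j <;>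
      simp [y, zz, g1, g2, g3, a1.ne, a2.ne, a3.ne, a4.ne, a5.ne, a6.ne]

end Pool.Agent.Helper181_LK
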