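import Pool.Agent.Helper181_LK.Weight3

/-! The global count: an upper bound for the number of edges of a graph without `H_3`. -/

set_option autoImplicit false

namespace Pool.Agent.Helper181_LK

open Finset SimpleGraph

section
variable {V : Type*} [Fintype V] [DecidableEq V] {G : SimpleGraph V} [DecidableRel G.Adj]

/-- `M ≤ ε D² + (1 + 1/ε) D`, from `M² ≤ D M + 3 D³`. -/
theorem M_le {M D ε : ℝ} (hM : 0 ≤ M) (hD : 0 ≤ D) (hε : 0 < ε)
    (h : M ^ 2 ≤ D * M + 3 * D ^ 3) : M ≤ ε * D ^ 2 + (1 + 1 / ε) * D := by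
  by_contra hcon
  push Not at hcon
  have e1 : 0 < 1 / ε := by positivity
  have h1 : 0 ≤ ε * D ^ 2 + 1 / ε * D := by positivity
  have h2 : ε * D ^ 2 + 1 / ε * D < M - D := by linarith
  have h3 : (ε * D ^ 2 + 1 / ε * D) ^ 2 < (M - D) ^ 2 := by
    apply pow_lt_pow_left₀ h2 h1
    norm_num
  have h4 : (M - D) ^ 2 ≤ M * (M - D) := by nlinarith
  have h5 : M * (M - D) ≤ 3 * D ^ 3 := by nlinarith
  have h6 : 4 * D ^ 3 ≤ (ε * D ^ 2 + 1 / ε * D) ^ 2 := by
    have : (ε * D ^ 2 + 1 / ε * D) ^ 2 = (ε * D ^ 2 - 1 / ε * D) ^ 2 + 4 * D ^ 3 := by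
      field_simp; ring
    rw [this]; nlinarith [sq_nonneg (ε * D ^ 2 - 1 / ε * D)]
  have h7 : 0 ≤ D ^ 3 := by positivity
  linarith

/-- the sum of `1 / t` over the pairs in neighbourhoods -/
theorem sum_inv_le : ∑ x : V, ∑ y ∈ G.neighborFinset x, ∑ y' ∈ G.neighborFinset x,
    (if y = y' then 0 else 1 / ((G.neighborFinset y ∩ G.neighborFinset y').card : ℝ)) ≤
      (Fintype.card V : ℝ) ^ 2 := by
  have h1 : ∑ x : V, ∑ y ∈ G.neighborFinset x, ∑ y' ∈ G.neighborFinset x,
      (if y = y' then 0 else 1 / ((G.neighborFinset y ∩ G.neighborFinset y').card : ℝ)) =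
      ∑ y : V, ∑ y' : V, ∑ x : V, (if G.Adj x y ∧ G.Adj x y' then
        (if y = y' then 0 else 1 / ((G.neighborFinset y ∩ G.neighborFinset y').card : ℝ)) else 0) := by
    have h2 : ∀ x : V, ∑ y ∈ G.neighborFinset x, ∑ y' ∈ G.neighborFinset x,
        (if y = y' then 0 else 1 / ((G.neighborFinset y ∩ G.neighborFinset y').card : ℝ)) =
        ∑ y : V, ∑ y' : V, (if G.Adj x y ∧ G.Adj x y' then
        (if y = y' then 0 else 1 / ((G.neighborFinset y ∩ G.neighborFinset y').card : ℝ)) else 0) := by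
      intro x
      have h3 : G.neighborFinset x = univ.filter (fun y => G.Adj x y) := by ext y; simp
      rw [h3, sum_filter]
      apply sum_congr rfl
      intro y _
      by_cases hy : G.Adj x y
      · simp only [hy, if_true, true_and]
        rw [sum_filter]
      · simp [hy]
    rw [sum_congr rfl fun x _ => h2 x, sum_comm]
    apply sum_congr rfl
    intro y _
    rw [sum_comm]
  rw [h1]
  have h4 : ∀ y y' : V, ∑ x : V, (if G.Adj x y ∧ G.Adj x y' then
        (if y = y' then 0 else 1 / ((G.neighborFinset y ∩ G.neighborFinset y').card : ℝ)) else 0) ≤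
        (1 : ℝ) := by
    intro y y'
    rw [← sum_filter]
    have h5 : univ.filter (fun x => G.Adj x y ∧ G.Adj x y') =
        G.neighborFinset y ∩ G.neighborFinset y' := by
      ext x; simp [G.adj_comm x]
    rw [h5, sum_const, nsmul_eq_mul]
    by_cases e : y = y'
    · simp [e]
    · rw [if_neg e]
      by_cases c : ((G.neighborFinset y ∩ G.neighborFinset y').card : ℝ) = 0
      · rw [c]; simp
      · rw [mul_one_div_cancel c]
  calc _ ≤ ∑ y : V, ∑ y' : V, (1 : ℝ) := sum_le_sum fun y _ => sum_le_sum fun y' _ => h4 y y'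
    _ = _ := by simp only [sum_const, nsmul_eq_mul, card_univ]; ring

/-- the sum of squares of degrees -/
theorem sum_sq_le (h : NoL3 G) {ε : ℝ} (hε : 0 < ε) :
    (1 / 2 - 6 * ε) * ∑ x : V, (G.degree x : ℝ) ^ 2 ≤ (Fintype.card V : ℝ) ^ 2 +
      (51 + 6 / ε) * ∑ x : V, (G.degree x : ℝ) := by
  have h1 : ∀ x : V, (G.degree x : ℝ) ^ 2 - G.degree x = AA G x +
      ∑ y ∈ G.neighborFinset x, ∑ y' ∈ G.neighborFinset x,
    (if y = y' then 0 else 1 / ((G.neighborFinset y ∩ G.neighborFinset y').card : ℝ)) := by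
    intro x
    unfold AA
    rw [← sum_add_distrib]
    have h2 : ∀ y ∈ G.neighborFinset x, (∑ y' ∈ G.neighborFinset x, aa G y y' +
        ∑ y' ∈ G.neighborFinset x, (if y = y' then 0 else
          1 / ((G.neighborFinset y ∩ G.neighborFinset y').card : ℝ))) = (G.degree x : ℝ) - 1 := by
      intro y hy
      rw [← sum_add_distrib]
      have h3 : ∀ y' ∈ G.neighborFinset x, (aa G y y' + (if y = y' then 0 else
          1 / ((G.neighborFinset y ∩ G.neighborFinset y').card : ℝ))) =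
          1 - (if y = y' then 1 else 0) := by
        intro y' _
        unfold aa
        split_ifs <;> simp
      rw [sum_congr rfl h3, sum_sub_distrib, sum_ite_eq, if_pos hy]
      simp
    rw [sum_congr rfl h2, sum_const, nsmul_eq_mul, card_neighborFinset_eq_degree]
    ring
  have h2 : ∀ x : V, (G.degree x : ℝ) ^ 2 - G.degree x ≤ (G.degree x : ℝ) ^ 2 / 2 +
      6 * (ε * (G.degree x : ℝ) ^ 2 + (1 + 1 / ε) * G.degree x) + 44 * G.degree x +
      ∑ y ∈ G.neighborFinset x, ∑ y' ∈ G.neighborFinset x,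
    (if y = y' then 0 else 1 / ((G.neighborFinset y ∩ G.neighborFinset y').card : ℝ)) := by
    intro x
    rw [h1 x]
    have h3 := AA_le h x
    have h4 := M_le (MM_nonneg (G := G) x) (Nat.cast_nonneg _) hε (MM_sq h x)
    rw [card_neighborFinset_eq_degree] at h3 h4
    linarith
  have h3 := sum_le_sum (s := (univ : Finset V)) fun x _ => h2 x
  simp only [sum_sub_distrib, sum_add_distrib, ← mul_sum, ← sum_div] at h3
  have h4 := sum_inv_le (G := G)
  have h5 : 6 / ε = 6 * (1 / ε) := by ring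
  rw [h5]
  nlinarith

/-- The main finite inequality: for every `ε`, `(2 - 24 ε) e² ≤ n³ + (102 + 12/ε) n e`. -/
theorem edges_ineq (h : NoL3 G) {ε : ℝ} (hε : 0 < ε) (hε' : ε < 1 / 12) :
    (2 - 24 * ε) * (G.edgeFinset.card : ℝ) ^ 2 ≤ (Fintype.card V : ℝ) ^ 3 +
      (102 + 12 / ε) * (Fintype.card V : ℝ) * (G.edgeFinset.card : ℝ) := by
  have h1 := sum_sq_le h hε
  have h2 : ∑ x : V, (G.degree x : ℝ) = 2 * (G.edgeFinset.card : ℝ) := by
    have := G.sum_degrees_eq_twice_card_edges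
    exact_mod_cast this
  have h3 : (∑ x : V, (G.degree x : ℝ)) ^ 2 ≤ (Fintype.card V : ℝ) * ∑ x : V, (G.degree x : ℝ) ^ 2 := by
    have := sq_sum_le_card_mul_sum_sq (s := (univ : Finset V)) (f := fun x => (G.degree x : ℝ))
    simpa using this
  rw [h2] at h1 h3
  have hn : (0 : ℝ) ≤ Fintype.card V := Nat.cast_nonneg _
  have h4 : (0 : ℝ) ≤ 1 / 2 - 6 * ε := by linarith
  have h5 := mul_le_mul_of_nonneg_left h3 h4
  have h6 := mul_le_mul_of_nonneg_left h1 hn
  have e1 : 12 / ε = 2 * (6 / ε) := by ring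
  rw [e1]
  nlinarith

end

end Pool.Agent.Helper181_LK
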