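import Pool.Agent.Helper181_LK.Defs

/-! Local structure of graphs without `H_3`. -/

set_option autoImplicit false

namespace Pool.Agent.Helper181_LK

open Finset SimpleGraph

section
variable {V : Type*} [Fintype V] [DecidableEq V] (G : SimpleGraph V) [DecidableRel G.Adj]

/-- the common neighbours of `y` and `y'` other than `x` -/
def S (x y y' : V) : Finset V := (G.neighborFinset y ∩ G.neighborFinset y').erase x

variable {G}

theorem mem_S {x y y' z : V} : z ∈ S G x y y' ↔ z ≠ x ∧ G.Adj y z ∧ G.Adj y' z := by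
  simp [S]

theorem S_comm (x y y' : V) : S G x y y' = S G x y' y := by
  ext z; simp [mem_S, and_comm]

/-- Three vertices have at most three common neighbours. -/
theorem k34 (h : NoL3 G) {u v w : V} (huv : u ≠ v) (huw : u ≠ w) (hvw : v ≠ w) :
    (G.neighborFinset u ∩ G.neighborFinset v ∩ G.neighborFinset w).card ≤ 3 := by
  by_contra hc
  push Not at hc
  obtain ⟨a, ha, b, hb, c, hc, d, hd, h1, h2, h3, h4, h5, h6⟩ := three_lt_card.1 hc
  simp only [mem_inter, mem_neighborFinset] at ha hb hc hd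
  exact h a u v w b c d ha.1.1.symm ha.1.2.symm ha.2.symm hb.1.1 hb.1.2 hc.1.1 hc.2 hd.1.2 hd.2
    huv huw hvw h4 h5 h6 h1 h2 h3 hb.2.ne hc.1.2.ne hd.1.1.ne

/-- a set lemma about systems of distinct representatives -/
theorem sets3 {S12 S13 S23 : Finset V}
    (hno : ∀ a ∈ S12, ∀ b ∈ S13, ∀ c ∈ S23, a ≠ b → a ≠ c → b ≠ c → False)
    (c2 : ∀ a ∈ S12, a ∈ S23 → a ∈ S13) (c3 : ∀ a ∈ S13, a ∈ S23 → a ∈ S12)
    (n1 : S12.Nonempty) (n2 : S13.Nonempty) (h2 : 2 ≤ S23.card) :
    (∃ z, S12 = {z} ∧ S13 = {z}) ∨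
      (∃ p q, p ≠ q ∧ S12 = {p, q} ∧ S13 = {p, q} ∧ S23 = {p, q}) := by
  by_cases h : ∃ a ∈ S12, ∃ b ∈ S13, a ≠ b
  · right
    have key : ∀ a ∈ S12, ∀ b ∈ S13, a ≠ b → S23 = {a, b} := by
      intro a ha b hb hab
      have hsub : S23 ⊆ {a, b} := by
        intro c hc
        by_contra hc'
        simp only [mem_insert, mem_singleton, not_or] at hc'
        exact hno a ha b hb c hc hab (fun e => hc'.1 e.symm) (fun e => hc'.2 e.symm)
      apply eq_of_subset_of_card_le hsub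
      rw [card_pair hab]; exact h2
    obtain ⟨a, ha, b, hb, hab⟩ := h
    have e := key a ha b hb hab
    have ha3 : a ∈ S13 := c2 a ha (by rw [e]; simp)
    have hb2 : b ∈ S12 := c3 b hb (by rw [e]; simp)
    refine ⟨a, b, hab, ?_, ?_, e⟩
    · ext r
      simp only [mem_insert, mem_singleton]
      constructor
      · intro hr
        by_contra hcon
        push Not at hcon
        have e2 := key r hr a ha3 hcon.1
        have : b ∈ ({r, a} : Finset V) := by rw [← e2, e]; simp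
        simp only [mem_insert, mem_singleton] at this
        rcases this with h' | h'
        · exact hcon.2 h'.symm
        · exact hab h'.symm
      · rintro (rfl | rfl)
        · exact ha
        · exact hb2
    · ext r
      simp only [mem_insert, mem_singleton]
      constructor
      · intro hr
        by_contra hcon
        push Not at hcon
        have e2 := key a ha r hr (fun h => hcon.1 h.symm)
        have : b ∈ ({a, r} : Finset V) := by rw [← e2, e]; simp
        simp only [mem_insert, mem_singleton] at this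
        rcases this with h' | h'
        · exact hab h'.symm
        · exact hcon.2 h'.symm
      · rintro (rfl | rfl)
        · exact ha3
        · exact hb
  · left
    push Not at h
    obtain ⟨z, hz⟩ := n1
    obtain ⟨w, hw⟩ := n2
    have hzw : z = w := h z hz w hw
    subst hzw
    refine ⟨z, ?_, ?_⟩
    · ext r
      simp only [mem_singleton]
      exact ⟨fun hr => h r hr z hw, fun e => e ▸ hz⟩
    · ext r
      simp only [mem_singleton]
      exact ⟨fun hr => (h z hz r hr).symm, fun e => e ▸ hw⟩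

/-- Local alternative: three pairwise non-adjacent neighbours of `x`, all pairs having a further
common neighbour, and one pair at least two. -/
theorem alt3 (h : NoL3 G) {x y1 y2 y3 : V} (h1 : G.Adj x y1) (h2 : G.Adj x y2) (h3 : G.Adj x y3)
    (d12 : y1 ≠ y2) (d13 : y1 ≠ y3) (d23 : y2 ≠ y3)
    (n12 : ¬ G.Adj y1 y2) (n13 : ¬ G.Adj y1 y3) (n23 : ¬ G.Adj y2 y3)
    (e12 : (S G x y1 y2).Nonempty) (e13 : (S G x y1 y3).Nonempty)
    (c23 : 2 ≤ (S G x y2 y3).card) :
    (∃ z, S G x y1 y2 = {z} ∧ S G x y1 y3 = {z}) ∨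
      (∃ p q, p ≠ q ∧ S G x y1 y2 = {p, q} ∧ S G x y1 y3 = {p, q} ∧ S G x y2 y3 = {p, q}) := by
  apply sets3 ?_ ?_ ?_ e12 e13 c23
  · intro a ha b hb c hc hab hac hbc
    rw [mem_S] at ha hb hc
    refine h x y1 y2 y3 a b c h1 h2 h3 ha.2.1 ha.2.2 hb.2.1 hb.2.2 hc.2.1 hc.2.2 d12 d13 d23
      hab hac hbc ha.1.symm hb.1.symm hc.1.symm ?_ ?_ ?_
    · rintro rfl; exact n13 ha.2.1
    · rintro rfl; exact n12 hb.2.1
    · rintro rfl; exact n12 hc.2.1.symm
  · intro a ha hb
    rw [mem_S] at ha hb ⊢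
    exact ⟨ha.1, ha.2.1, hb.2.2⟩
  · intro a ha hb
    rw [mem_S] at ha hb ⊢
    exact ⟨ha.1, ha.2.1, hb.2.1⟩

/-- four common neighbours of three distinct vertices are impossible -/
theorem four_common (h : NoL3 G) {u v w a b c d : V} (huv : u ≠ v) (huw : u ≠ w) (hvw : v ≠ w)
    (ha : G.Adj u a ∧ G.Adj v a ∧ G.Adj w a) (hb : G.Adj u b ∧ G.Adj v b ∧ G.Adj w b)
    (hc : G.Adj u c ∧ G.Adj v c ∧ G.Adj w c) (hd : G.Adj u d ∧ G.Adj v d ∧ G.Adj w d)
    (ab : a ≠ b) (ac : a ≠ c) (ad : a ≠ d) (bc : b ≠ c) (bd : b ≠ d) (cd : c ≠ d) : False := by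
  have := k34 h huv huw hvw
  have h4 : 3 < (G.neighborFinset u ∩ G.neighborFinset v ∩ G.neighborFinset w).card := by
    rw [three_lt_card]
    refine ⟨a, ?_, b, ?_, c, ?_, d, ?_, ab, ac, ad, bc, bd, cd⟩ <;>
      simp [mem_inter, mem_neighborFinset, *]
  omega

/-- For `y ∈ N(x) ∩ N(z)` the number of `y' ∈ N(x) ∩ N(z)` non-adjacent to `y` with at least two
further common neighbours with `y` is at most `7`. -/
theorem P7 (h : NoL3 G) {x z y : V} (hxz : x ≠ z) (hxy : G.Adj x y) (hzy : G.Adj z y) :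
    (univ.filter (fun w => G.Adj x w ∧ G.Adj z w ∧ w ≠ y ∧ ¬ G.Adj y w ∧
      2 ≤ (S G x y w).card)).card ≤ 7 := by
  set P := univ.filter (fun w => G.Adj x w ∧ G.Adj z w ∧ w ≠ y ∧ ¬ G.Adj y w ∧
      2 ≤ (S G x y w).card) with hP
  have memP : ∀ w, w ∈ P ↔ (G.Adj x w ∧ G.Adj z w ∧ w ≠ y ∧ ¬ G.Adj y w ∧
      2 ≤ (S G x y w).card) := by intro w; simp [hP]
  -- two nonadjacent members of `P`
  have two : ∀ w ∈ P, ∀ w' ∈ P, w ≠ w' → ¬ G.Adj w w' →
      ∃ p q, p ≠ q ∧ S G x y w = {p, q} ∧ S G x y w' = {p, q} := by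
    intro w hw w' hw' hne hna
    rw [memP] at hw hw'
    obtain ⟨a1, a2, a3, a4, a5⟩ := hw
    obtain ⟨b1, b2, b3, b4, b5⟩ := hw'
    have := alt3 h (x := x) (y1 := w) (y2 := y) (y3 := w') a1 hxy b1 a3 hne b3.symm
      (fun e => a4 e.symm) hna b4
      ⟨z, mem_S.2 ⟨hxz.symm, a2.symm, hzy.symm⟩⟩ ⟨z, mem_S.2 ⟨hxz.symm, a2.symm, b2.symm⟩⟩ b5
    rcases this with ⟨z', e1, _⟩ | ⟨p, q, hpq, e1, _, e3⟩
    · rw [S_comm, e1] at a5
      simp at a5
    · exact ⟨p, q, hpq, by rw [S_comm, e1], e3⟩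
  -- each member has at most one non-neighbour in `P`
  have one : ∀ w ∈ P, (P.filter (fun w' => w' ≠ w ∧ ¬ G.Adj w w')).card ≤ 1 := by
    intro w hw
    rw [card_le_one]
    intro a ha b hb
    by_contra hab
    rw [mem_filter] at ha hb
    obtain ⟨p, q, hpq, e1, e2⟩ := two w hw a ha.1 ha.2.1.symm ha.2.2
    obtain ⟨p', q', hpq', e1', e2'⟩ := two w hw b hb.1 hb.2.1.symm hb.2.2
    have e3 : S G x y b = {p, q} := by rw [e2', ← e1', e1]
    have hp1 : p ∈ S G x y w := by rw [e1]; simp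
    have hq1 : q ∈ S G x y w := by rw [e1]; simp
    have hp2 : p ∈ S G x y a := by rw [e2]; simp
    have hq2 : q ∈ S G x y a := by rw [e2]; simp
    have hp3 : p ∈ S G x y b := by rw [e3]; simp
    have hq3 : q ∈ S G x y b := by rw [e3]; simp
    rw [mem_S] at hp1 hq1 hp2 hq2 hp3 hq3
    rw [memP] at hw
    have ha' := (memP a).1 ha.1
    have hb' := (memP b).1 hb.1
    exact four_common h (u := x) (v := p) (w := q) (a := y) (b := w) (c := a) (d := b)
      hp1.1.symm hq1.1.symm hpq ⟨hxy, hp1.2.1.symm, hq1.2.1.symm⟩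
      ⟨hw.1, hp1.2.2.symm, hq1.2.2.symm⟩ ⟨ha'.1, hp2.2.2.symm, hq2.2.2.symm⟩
      ⟨hb'.1, hp3.2.2.symm, hq3.2.2.symm⟩ hw.2.2.1.symm ha'.2.2.1.symm hb'.2.2.1.symm
      ha.2.1.symm hb.2.1.symm hab
  by_contra hcon
  push Not at hcon
  obtain ⟨a, b, c, ha, hb, hc, hab, hac, hbc⟩ := two_lt_card_iff.1 (show 2 < P.card by omega)
  -- common neighbours of a, b, c
  have hbad : ∀ w ∈ P, (P.filter (fun w' => ¬ G.Adj w w')).card ≤ 2 := by
    intro w hw
    have hsub : P.filter (fun w' => ¬ G.Adj w w') ⊆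
        insert w (P.filter (fun w' => w' ≠ w ∧ ¬ G.Adj w w')) := by
      intro w' hw'
      rw [mem_filter] at hw'
      by_cases e : w' = w
      · simp [e]
      · simp [e, hw'.1, hw'.2]
    calc _ ≤ _ := card_le_card hsub
      _ ≤ _ := card_insert_le _ _
      _ ≤ 2 := by have := one w hw; omega
  have hcov : P ⊆ (G.neighborFinset a ∩ G.neighborFinset b ∩ G.neighborFinset c ∩ P) ∪
      ((P.filter (fun w' => ¬ G.Adj a w')) ∪ ((P.filter (fun w' => ¬ G.Adj b w')) ∪
        (P.filter (fun w' => ¬ G.Adj c w')))) := by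
    intro w hw
    simp only [mem_union, mem_inter, mem_neighborFinset, mem_filter]
    by_cases e1 : G.Adj a w <;> by_cases e2 : G.Adj b w <;> by_cases e3 : G.Adj c w <;>
      simp [e1, e2, e3, hw]
  have hsz : 2 ≤ (G.neighborFinset a ∩ G.neighborFinset b ∩ G.neighborFinset c ∩ P).card := by
    have h1 := card_le_card hcov
    have h2 := card_union_le (G.neighborFinset a ∩ G.neighborFinset b ∩ G.neighborFinset c ∩ P)
      ((P.filter (fun w' => ¬ G.Adj a w')) ∪ ((P.filter (fun w' => ¬ G.Adj b w')) ∪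
        (P.filter (fun w' => ¬ G.Adj c w'))))
    have h3 := card_union_le (P.filter (fun w' => ¬ G.Adj a w'))
      ((P.filter (fun w' => ¬ G.Adj b w')) ∪ (P.filter (fun w' => ¬ G.Adj c w')))
    have h4 := card_union_le (P.filter (fun w' => ¬ G.Adj b w')) (P.filter (fun w' => ¬ G.Adj c w'))
    have := hbad a ha
    have := hbad b hb
    have := hbad c hc
    omega
  obtain ⟨u, v, hu, hv, huv⟩ := one_lt_card_iff.1 (show 1 <
    (G.neighborFinset a ∩ G.neighborFinset b ∩ G.neighborFinset c ∩ P).card by omega)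
  simp only [mem_inter, mem_neighborFinset, memP] at hu hv
  rw [memP] at ha hb hc
  exact four_common h (u := a) (v := b) (w := c) (a := u) (b := v) (c := x) (d := z)
    hab hac hbc ⟨hu.1.1.1, hu.1.1.2, hu.1.2⟩ ⟨hv.1.1.1, hv.1.1.2, hv.1.2⟩
    ⟨ha.1.symm, hb.1.symm, hc.1.symm⟩ ⟨ha.2.1.symm, hb.2.1.symm, hc.2.1.symm⟩ huv
    hu.2.1.ne.symm hu.2.2.1.ne.symm hv.2.1.ne.symm hv.2.2.1.ne.symm hxz

end

end Pool.Agent.Helper181_LK
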