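import Pool.Agent.Helper181_LK.Defs

/-! Blow-ups of a graph without 4-cycles contain no `H_k`. -/

set_option autoImplicit false

namespace Pool.Agent.Helper181_LK

open Finset SimpleGraph

/-- the pair `{i, j}` -/
def pr {k : ℕ} (i j : Fin k) (h : i ≠ j) : {p : Finset (Fin k) // p.card = 2} :=
  ⟨{i, j}, card_pair h⟩

/-- A graph with a map `c` such that (i) two common neighbours of two vertices with different
values of `c` have the same value of `c`, and (ii) every fibre of `c` has fewer than `k` elements,
contains no `H_k`. -/
theorem free_of_classes {V B : Type*} (G : SimpleGraph V) (c : V → B) (k : ℕ)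
    (h1 : ∀ u v w w' : V, c u ≠ c v → G.Adj u w → G.Adj v w → G.Adj u w' → G.Adj v w' → c w = c w')
    (h2 : ∀ g : Fin k → V, Function.Injective g → ∃ i j, c (g i) ≠ c (g j)) :
    (LK k).Free G := by
  rintro ⟨f⟩
  let x := f (Sum.inl ())
  let y : Fin k → V := fun i => f (Sum.inr (Sum.inl i))
  let z : {p : Finset (Fin k) // p.card = 2} → V := fun p => f (Sum.inr (Sum.inr p))
  have hxy : ∀ i, G.Adj x (y i) := fun i => f.toHom.map_adj (LK_adj_xy k i)
  have hyz : ∀ i p, i ∈ p.1 → G.Adj (y i) (z p) := fun i p h => f.toHom.map_adj (LK_adj_yz k i p h)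
  have hy : Function.Injective y := by
    intro i j h
    have := f.injective h
    simpa using this
  have hz : Function.Injective z := by
    intro p q h
    have := f.injective h
    simpa using this
  have hxz : ∀ p, x ≠ z p := by
    intro p h
    have := f.injective h
    simp at this
  obtain ⟨i0, j0, hij⟩ := h2 y hy
  have hne : i0 ≠ j0 := by rintro rfl; exact hij rfl
  -- cross pairs
  have cross : ∀ i j (h : i ≠ j), c (y i) ≠ c (y j) → c (z (pr i j h)) = c x := by
    intro i j h hc
    exact h1 (y i) (y j) _ _ hc (hyz i _ (by simp [pr])) (hyz j _ (by simp [pr])) (hxy i).symm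
      (hxy j).symm
  classical
  let g : Fin k → V := fun l =>
    if hl : l = i0 then x
    else if hl2 : l = j0 then z (pr i0 j0 hne)
    else if c (y l) ≠ c (y i0) then z (pr l i0 hl) else z (pr l j0 hl2)
  have gc : ∀ l, c (g l) = c x := by
    intro l
    simp only [g]
    split_ifs with a1 a2 a3
    · rfl
    · exact cross i0 j0 hne hij
    · exact cross l i0 a1 a3
    · push Not at a3
      exact cross l j0 a2 (by rw [a3]; exact hij)
  -- the value of `g` determines the index
  have gi : Function.Injective g := by
    have key : ∀ l, (l ≠ i0) → ∃ (m : Fin k) (hm : l ≠ m), g l = z (pr l m hm) ∧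
        (m = i0 ∨ (m = j0)) := by
      intro l hl
      by_cases a2 : l = j0
      · subst a2
        refine ⟨i0, hl, ?_, Or.inl rfl⟩
        simp only [g, dif_neg hl, dif_pos]
        congr 1
        apply Subtype.ext
        simp only [pr]
        exact pair_comm _ _
      · by_cases a3 : c (y l) ≠ c (y i0)
        · exact ⟨i0, hl, by simp only [g, dif_neg hl, dif_neg a2, if_pos a3], Or.inl rfl⟩
        · exact ⟨j0, a2, by simp only [g, dif_neg hl, dif_neg a2, if_neg a3], Or.inr rfl⟩
    intro l l' h
    by_cases a1 : l = i0
    · by_cases b1 : l' = i0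
      · rw [a1, b1]
      · exfalso
        obtain ⟨m, hm, e, _⟩ := key l' b1
        have e2 : g l = x := by simp only [g, dif_pos a1]
        rw [e2, e] at h
        exact hxz _ h
    · by_cases b1 : l' = i0
      · exfalso
        obtain ⟨m, hm, e, _⟩ := key l a1
        have e2 : g l' = x := by simp only [g, dif_pos b1]
        rw [e2, e] at h
        exact hxz _ h.symm
      · by_cases a2 : l = j0
        · by_cases b2 : l' = j0
          · rw [a2, b2]
          · exfalso
            have e1 : g l = z (pr i0 j0 hne) := by simp only [g, dif_neg a1, dif_pos a2]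
            obtain ⟨m, hm, e, hm'⟩ := key l' b1
            rw [e1, e] at h
            have h' := congrArg Subtype.val (hz h)
            simp only [pr] at h'
            have : l' ∈ ({i0, j0} : Finset (Fin k)) := by rw [h']; simp
            simp only [mem_insert, mem_singleton] at this
            rcases this with h | h
            · exact b1 h
            · exact b2 h
        · by_cases b2 : l' = j0
          · exfalso
            have e1 : g l' = z (pr i0 j0 hne) := by simp only [g, dif_neg b1, dif_pos b2]
            obtain ⟨m, hm, e, hm'⟩ := key l a1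
            rw [e1, e] at h
            have h' := congrArg Subtype.val (hz h)
            simp only [pr] at h'
            have : l ∈ ({i0, j0} : Finset (Fin k)) := by rw [← h']; simp
            simp only [mem_insert, mem_singleton] at this
            rcases this with h | h
            · exact a1 h
            · exact a2 h
          · obtain ⟨m, hm, e, hm'⟩ := key l a1
            obtain ⟨m', hm2, e', hm2'⟩ := key l' b1
            rw [e, e'] at h
            have h' := congrArg Subtype.val (hz h)
            simp only [pr] at h'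
            have : l ∈ ({l', m'} : Finset (Fin k)) := by rw [← h']; simp
            simp only [mem_insert, mem_singleton] at this
            rcases this with h | h
            · exact h
            · exfalso
              rcases hm2' with rfl | rfl
              · exact a1 h
              · exact a2 h
  obtain ⟨i, j, hc⟩ := h2 g gi
  exact hc (by rw [gc, gc])

/-- adding isolated vertices does not create an `H_k`, `k ≥ 2` -/
theorem free_map {V W : Type*} (G : SimpleGraph V) (e : V ↪ W) (k : ℕ) (hk : 2 ≤ k)
    (h : (LK k).Free G) : (LK k).Free (G.map e) := by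
  rintro ⟨f⟩
  apply h
  have hr : ∀ v, ∃ a, e a = f v := by
    intro v
    have : ∃ w, (LK k).Adj v w := by
      rcases v with v | i | p
      · exact ⟨Sum.inr (Sum.inl ⟨0, by omega⟩), LK_adj_xy k _⟩
      · exact ⟨Sum.inl (), (LK_adj_xy k i).symm⟩
      · have : (p.1).Nonempty := by
          rw [← card_pos, p.2]; norm_num
        obtain ⟨i, hi⟩ := this
        exact ⟨Sum.inr (Sum.inl i), (LK_adj_yz k i p hi).symm⟩
    obtain ⟨w, hw⟩ := this
    have h1 := f.toHom.map_adj hw
    change (G.map e).Adj (f v) (f w) at h1
    rw [SimpleGraph.map_adj] at h1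
    obtain ⟨a, b, _, ha, _⟩ := h1
    exact ⟨a, ha⟩
  choose a ha using hr
  refine ⟨⟨⟨a, ?_⟩, ?_⟩⟩
  · intro v w hvw
    have h1 := f.toHom.map_adj hvw
    change (G.map e).Adj (f v) (f w) at h1
    rw [← ha v, ← ha w, SimpleGraph.map_adj_apply] at h1
    exact h1
  · intro v w hvw
    change a v = a w at hvw
    apply f.injective
    change f v = f w
    rw [← ha v, ← ha w, hvw]

/-- the graph on `(ZMod p)²`, `(a, b)` and `(x, y)` adjacent when `b + y = a x` -/
def pol (p : ℕ) : SimpleGraph (ZMod p × ZMod p) where
  Adj u v := u ≠ v ∧ u.2 + v.2 = u.1 * v.1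
  symm := ⟨fun u v h => ⟨h.1.symm, by rw [add_comm, mul_comm]; exact h.2⟩⟩
  loopless := ⟨fun u h => h.1 rfl⟩

theorem pol_c4 (p : ℕ) [Fact p.Prime] {u v w w' : ZMod p × ZMod p} (huv : u ≠ v)
    (h1 : (pol p).Adj u w) (h2 : (pol p).Adj v w) (h3 : (pol p).Adj u w') (h4 : (pol p).Adj v w') :
    w = w' := by
  obtain ⟨_, h1⟩ := h1
  obtain ⟨_, h2⟩ := h2
  obtain ⟨_, h3⟩ := h3
  obtain ⟨_, h4⟩ := h4
  have e1 : (u.1 - v.1) * w.1 = u.2 - v.2 := by linear_combination h2 - h1
  have e2 : (u.1 - v.1) * w'.1 = u.2 - v.2 := by linear_combination h4 - h3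
  have hne : u.1 - v.1 ≠ 0 := by
    intro h
    apply huv
    rw [h, zero_mul] at e1
    exact Prod.ext (sub_eq_zero.1 h) (sub_eq_zero.1 e1.symm)
  have e3 : w.1 = w'.1 := by
    apply mul_left_cancel₀ hne
    rw [e1, e2]
  have e4 : w.2 = w'.2 := by
    have : u.2 + w.2 = u.2 + w'.2 := by rw [h1, h3, e3]
    exact add_left_cancel this
  exact Prod.ext e3 e4

/-- the blow-up of `pol p` in which every vertex is replaced by `s` vertices -/
def blow (p s : ℕ) : SimpleGraph ((ZMod p × ZMod p) × Fin s) where
  Adj u v := (pol p).Adj u.1 v.1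
  symm := ⟨fun u v h => SimpleGraph.Adj.symm h⟩
  loopless := ⟨fun u h => (pol p).loopless.irrefl _ h⟩

theorem blow_free (p s : ℕ) [Fact p.Prime] : (LK (s + 1)).Free (blow p s) := by
  apply free_of_classes (blow p s) Prod.fst (s + 1)
  · intro u v w w' huv a1 a2 a3 a4
    exact pol_c4 p huv a1 a2 a3 a4
  · intro g hg
    by_contra hcon
    push Not at hcon
    have : Function.Injective (fun i => (g i).2) := by
      intro i j hij
      exact hg (Prod.ext (hcon i j) hij)
    have h2 := Fintype.card_le_of_injective _ this
    simp at h2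

open Classical in
theorem blow_edges (p s : ℕ) [Fact p.Prime] :
    s ^ 2 * (p ^ 2 * (p - 1)) ≤ 2 * (blow p s).edgeFinset.card := by
  have hp : 1 ≤ p := (Fact.out : p.Prime).one_lt.le
  rw [← (blow p s).sum_degrees_eq_twice_card_edges]
  have hdeg : ∀ v : (ZMod p × ZMod p) × Fin s, s * (p - 1) ≤ (blow p s).degree v := by
    intro v
    rw [← card_neighborFinset_eq_degree]
    -- the neighbours are `((x, v.1.1 * x - v.1.2), i)`
    let F : ZMod p × Fin s → (ZMod p × ZMod p) × Fin s := fun q => ((q.1, v.1.1 * q.1 - v.1.2), q.2)
    have hF : Function.Injective F := by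
      intro q q' h
      simp only [F, Prod.mk.injEq] at h
      exact Prod.ext h.1.1 h.2
    have hsub : ((univ.filter (fun x : ZMod p => x ≠ v.1.1)) ×ˢ (univ : Finset (Fin s))).image F ⊆
        (blow p s).neighborFinset v := by
      intro w hw
      rw [mem_image] at hw
      obtain ⟨q, hq, rfl⟩ := hw
      simp only [mem_product, mem_filter, mem_univ, true_and, and_true] at hq
      rw [mem_neighborFinset]
      refine ⟨?_, ?_⟩
      · intro h
        exact hq (congrArg Prod.fst h).symm
      · simp only [F]; ring
    have hcard := card_le_card hsub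
    rw [card_image_of_injective _ hF, card_product, filter_ne', card_erase_of_mem (mem_univ _),
      card_univ, card_univ, ZMod.card, Fintype.card_fin] at hcard
    rw [mul_comm]; exact hcard
  calc s ^ 2 * (p ^ 2 * (p - 1)) = ∑ _v : (ZMod p × ZMod p) × Fin s, s * (p - 1) := by
        rw [sum_const, smul_eq_mul, card_univ, Fintype.card_prod, Fintype.card_prod, ZMod.card,
          Fintype.card_fin]
        ring
    _ ≤ _ := sum_le_sum fun v _ => hdeg v

/-- the lower bound from a prime `p` with `s p² ≤ n` -/
theorem lower_prime (p s n : ℕ) [Fact p.Prime] (hs : 1 ≤ s) (hn : s * p ^ 2 ≤ n) :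
    s ^ 2 * (p ^ 2 * (p - 1)) ≤ 2 * SimpleGraph.extremalNumber n (LK (s + 1)) := by
  classical
  have hcard : Fintype.card ((ZMod p × ZMod p) × Fin s) ≤ Fintype.card (Fin n) := by
    rw [Fintype.card_prod, Fintype.card_prod, ZMod.card, Fintype.card_fin, Fintype.card_fin]
    calc p * p * s = s * p ^ 2 := by ring
      _ ≤ n := hn
  obtain ⟨e⟩ := Function.Embedding.nonempty_of_card_le hcard
  have hfree := free_map (blow p s) e (s + 1) (by omega) (blow_free p s)
  have h1 := SimpleGraph.card_edgeFinset_le_extremalNumber hfree
  rw [Fintype.card_fin] at h1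
  have h2 := SimpleGraph.card_edgeFinset_map e (blow p s)
  have h3 := blow_edges p s
  have h4 : (blow p s).edgeFinset.card ≤ SimpleGraph.extremalNumber n (LK (s + 1)) := by
    rw [← h2]
    convert h1
  exact h3.trans (Nat.mul_le_mul_left 2 h4)

end Pool.Agent.Helper181_LK
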