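import Pool.Agent.Helper181_LK.Global3

/-! The asymptotic upper bound for `H_3`. -/

set_option autoImplicit false

namespace Pool.Agent.Helper181_LK

open Finset SimpleGraph Filter Topology

theorem rpow_three_halves {x : ℝ} (hx : 0 ≤ x) : x ^ ((3 : ℝ) / 2) = (Real.sqrt x) ^ 3 := by
  rw [Real.sqrt_eq_rpow, ← Real.rpow_natCast, ← Real.rpow_mul hx]
  norm_num

/-- A bound of the shape `A e² ≤ n³ + K n e` gives `e ≤ c n^{3/2}` for large `n` when `A c² > 1`. -/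
theorem quad_bound {A K c : ℝ} (hA : 0 < A) (hK : 0 ≤ K) (hc : 0 < c) (h : 1 < A * c ^ 2) :
    ∃ s0 : ℝ, 0 < s0 ∧ ∀ s e : ℝ, s0 ≤ s → 0 ≤ e →
      A * e ^ 2 ≤ (s ^ 2) ^ 3 + K * s ^ 2 * e → e ≤ c * s ^ 3 := by
  refine ⟨(c * K + 1) / (A * c ^ 2 - 1), ?_, ?_⟩
  · have : 0 < A * c ^ 2 - 1 := by linarith
    positivity
  intro s e hs he hineq
  have hd : 0 < A * c ^ 2 - 1 := by linarith
  have hs' : c * K + 1 ≤ s * (A * c ^ 2 - 1) := by
    rwa [div_le_iff₀ hd] at hs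
  have hs0 : 0 < s := by
    have : 0 < (c * K + 1) / (A * c ^ 2 - 1) := by positivity
    linarith
  by_contra hcon
  push Not at hcon
  have hs3 : 0 < s ^ 3 := by positivity
  -- A c s - K > 0
  have h1 : K < A * c * s := by
    have h2 : c * K < c * (A * c * s) := by nlinarith
    exact lt_of_mul_lt_mul_left h2 hc.le
  have h3 : (s ^ 2) ^ 3 < A * (c * s ^ 3) ^ 2 - K * s ^ 2 * (c * s ^ 3) := by
    have h4 : A * (c * s ^ 3) ^ 2 - K * s ^ 2 * (c * s ^ 3) - (s ^ 2) ^ 3 =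
        s ^ 5 * (s * (A * c ^ 2 - 1) - c * K) := by ring
    have h5 : 0 < s ^ 5 * (s * (A * c ^ 2 - 1) - c * K) := by
      apply mul_pos (by positivity); linarith
    linarith
  have h6 : A * (c * s ^ 3) ^ 2 - K * s ^ 2 * (c * s ^ 3) ≤ A * e ^ 2 - K * s ^ 2 * e := by
    have h7 : A * e ^ 2 - K * s ^ 2 * e - (A * (c * s ^ 3) ^ 2 - K * s ^ 2 * (c * s ^ 3)) =
        (e - c * s ^ 3) * (A * (e + c * s ^ 3) - K * s ^ 2) := by ring
    have h8 : 0 ≤ A * (e + c * s ^ 3) - K * s ^ 2 := by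
      have h9 : K * s ^ 2 ≤ A * (c * s ^ 3) := by
        have : K * s ^ 2 ≤ A * c * s * s ^ 2 := mul_le_mul_of_nonneg_right h1.le (by positivity)
        calc K * s ^ 2 ≤ A * c * s * s ^ 2 := this
          _ = _ := by ring
      have : 0 ≤ A * e := by positivity
      nlinarith
    have := mul_nonneg (show (0 : ℝ) ≤ e - c * s ^ 3 by linarith) h8
    linarith
  linarith

theorem upper3 {c : ℝ} (hc : 1 / Real.sqrt 2 < c) :
    ∀ᶠ n : ℕ in atTop, (SimpleGraph.extremalNumber n (LK 3) : ℝ) ≤ c * (n : ℝ) ^ ((3 : ℝ) / 2) := by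
  have hs2 : 0 < Real.sqrt 2 := Real.sqrt_pos.2 (by norm_num)
  have hc0 : 0 < c := lt_trans (by positivity) hc
  have h1 : 1 < 2 * c ^ 2 := by
    have h2 : (1 / Real.sqrt 2) ^ 2 < c ^ 2 := pow_lt_pow_left₀ hc (by positivity) (by norm_num)
    rw [div_pow, Real.sq_sqrt (by norm_num)] at h2
    linarith
  -- choose ε
  obtain ⟨ε, hε, hε', h2⟩ : ∃ ε : ℝ, 0 < ε ∧ ε < 1 / 12 ∧ 1 < (2 - 24 * ε) * c ^ 2 := by
    have hcsq : 0 < c ^ 2 := by positivity
    refine ⟨min (1 / 24) ((2 * c ^ 2 - 1) / (48 * c ^ 2)), ?_, ?_, ?_⟩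
    · apply lt_min (by norm_num)
      apply div_pos <;> nlinarith
    · exact lt_of_le_of_lt (min_le_left _ _) (by norm_num)
    · have h3 : min (1 / 24) ((2 * c ^ 2 - 1) / (48 * c ^ 2)) ≤ (2 * c ^ 2 - 1) / (48 * c ^ 2) :=
        min_le_right _ _
      have h4 : (2 * c ^ 2 - 1) / (48 * c ^ 2) * (24 * c ^ 2) = (2 * c ^ 2 - 1) / 2 := by
        field_simp; ring
      have h5 : min (1 / 24) ((2 * c ^ 2 - 1) / (48 * c ^ 2)) * (24 * c ^ 2) ≤
          (2 * c ^ 2 - 1) / (48 * c ^ 2) * (24 * c ^ 2) :=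
        mul_le_mul_of_nonneg_right h3 (by positivity)
      nlinarith
  have hA : 0 < 2 - 24 * ε := by linarith
  have hK : 0 ≤ 102 + 12 / ε := by positivity
  obtain ⟨s0, hs0, hs⟩ := quad_bound hA hK hc0 h2
  have hlim : ∀ᶠ n : ℕ in atTop, s0 ≤ Real.sqrt n :=
    (Real.tendsto_sqrt_atTop.comp tendsto_natCast_atTop_atTop).eventually_ge_atTop s0
  filter_upwards [hlim] with n hn
  classical
  rw [rpow_three_halves (Nat.cast_nonneg n)]
  have hm : (0 : ℝ) ≤ c * Real.sqrt n ^ 3 := by positivity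
  have := (SimpleGraph.extremalNumber_le_iff_of_nonneg (V := Fin n) (LK 3) hm).2
  rw [Fintype.card_fin] at this
  apply this
  intro G _ hG
  have h3 := edges_ineq (noL3_of_free G hG) hε hε'
  rw [Fintype.card_fin] at h3
  apply hs (Real.sqrt n) _ hn (Nat.cast_nonneg _)
  rw [Real.sq_sqrt (Nat.cast_nonneg n)]
  convert h3 using 2

end Pool.Agent.Helper181_LK
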