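import Pool.Agent.Helper181_LK.Lower
import Pool.Agent.Helper181_LK.Upper3
import Pool.Agent.Helper923.PNT

/-! The asymptotic lower bound for `H_k`. -/

set_option autoImplicit false

namespace Pool.Agent.Helper181_LK

open Finset SimpleGraph Filter Topology

/-- a prime in `(y, (1 + δ) y]` for large `y` (prime number theorem) -/
theorem prime_near (δ : ℝ) (hδ : 0 < δ) : ∀ᶠ y : ℝ in atTop,
    ∃ p : ℕ, p.Prime ∧ y < p ∧ (p : ℝ) ≤ (1 + δ) * y := by
  have h1 := Pool.Agent.Helper923.PNT.theta_div_tendsto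
  have h2 : Tendsto (fun y : ℝ => Chebyshev.theta ((1 + δ) * y) / y) atTop (𝓝 (1 + δ)) := by
    have h3 : Tendsto (fun y : ℝ => (1 + δ) * y) atTop atTop :=
      tendsto_id.const_mul_atTop (by linarith)
    have h4 := (h1.comp h3).const_mul (1 + δ)
    rw [mul_one] at h4
    refine h4.congr' ?_
    filter_upwards [eventually_gt_atTop 0] with y hy
    simp only [Function.comp]
    have : 1 + δ ≠ 0 := by linarith
    field_simp
  have h5 := (h2.sub h1).eventually (lt_mem_nhds (show (0 : ℝ) < 1 + δ - 1 by linarith))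
  filter_upwards [h5, eventually_gt_atTop 0] with y hy hy0
  by_contra hcon
  push Not at hcon
  have h6 : Chebyshev.theta ((1 + δ) * y) = Chebyshev.theta y := by
    unfold Chebyshev.theta
    apply Finset.sum_congr _ (fun _ _ => rfl)
    ext p
    simp only [Finset.mem_filter, Finset.mem_Ioc]
    have h7 : y ≤ (1 + δ) * y := by nlinarith
    constructor
    · rintro ⟨⟨h8, h9⟩, h10⟩
      refine ⟨⟨h8, ?_⟩, h10⟩
      have h11 : (p : ℝ) ≤ (1 + δ) * y := (Nat.le_floor_iff (by positivity)).1 h9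
      apply Nat.le_floor
      by_contra h12
      push Not at h12
      exact absurd h11 (not_le.2 (hcon p h10 h12))
    · rintro ⟨⟨h8, h9⟩, h10⟩
      exact ⟨⟨h8, h9.trans (Nat.floor_le_floor h7)⟩, h10⟩
  rw [h6, sub_self] at hy
  exact lt_irrefl _ hy

theorem lower_as (s : ℕ) (hs : 1 ≤ s) {c : ℝ} (hc : c < Real.sqrt s / 2) :
    ∀ᶠ n : ℕ in atTop, c * (n : ℝ) ^ ((3 : ℝ) / 2) ≤ SimpleGraph.extremalNumber n (LK (s + 1)) := by
  set r : ℝ := Real.sqrt s with hr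
  have hs' : (1 : ℝ) ≤ s := by exact_mod_cast hs
  have hr0 : 0 < r := Real.sqrt_pos.2 (by linarith)
  have hr2 : r ^ 2 = s := Real.sq_sqrt (by linarith)
  set η : ℝ := r / 2 - c with hη
  have hη0 : 0 < η := by linarith
  set δ : ℝ := η / (3 * r) with hδ
  have hδ0 : 0 < δ := by positivity
  have hδ3 : 3 * δ * r = η := by rw [hδ]; field_simp
  have hy : Tendsto (fun n : ℕ => Real.sqrt n / (r * (1 + δ))) atTop atTop :=
    (Real.tendsto_sqrt_atTop.comp tendsto_natCast_atTop_atTop).atTop_div_const (by positivity)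
  have h1 := hy.eventually (prime_near δ hδ0)
  have h2 := hy.eventually_ge_atTop 1
  have h3 : ∀ᶠ n : ℕ in atTop, (s : ℝ) / η ≤ Real.sqrt n :=
    (Real.tendsto_sqrt_atTop.comp tendsto_natCast_atTop_atTop).eventually_ge_atTop _
  filter_upwards [h1, h2, h3] with n ⟨p, hp, hp1, hp2⟩ hn2 hn3
  set t : ℝ := Real.sqrt n with ht
  have ht0 : 0 ≤ t := Real.sqrt_nonneg _
  have ht2 : t ^ 2 = n := Real.sq_sqrt (Nat.cast_nonneg n)
  haveI : Fact p.Prime := ⟨hp⟩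
  have hp3 : (p : ℝ) ≤ t / r := by
    have : (1 + δ) * (t / (r * (1 + δ))) = t / r := by
      field_simp
    rwa [this] at hp2
  have hp4 : (p : ℝ) * r ≤ t := by rwa [le_div_iff₀ hr0] at hp3
  have hn : s * p ^ 2 ≤ n := by
    have : (s : ℝ) * (p : ℝ) ^ 2 ≤ n := by
      rw [← hr2, ← ht2, ← mul_pow]
      apply pow_le_pow_left₀ (by positivity)
      rw [mul_comm]; exact hp4
    exact_mod_cast this
  have h4 := lower_prime p s n hs hn
  have h5 : (s : ℝ) ^ 2 * ((p : ℝ) ^ 2 * ((p : ℝ) - 1)) ≤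
      2 * (SimpleGraph.extremalNumber n (LK (s + 1)) : ℝ) := by
    have := (Nat.cast_le (α := ℝ)).2 h4
    push_cast [Nat.cast_sub hp.one_lt.le] at this
    exact this
  rw [rpow_three_halves (Nat.cast_nonneg n), ← ht]
  set y : ℝ := t / (r * (1 + δ)) with hydef
  have hy1 : y ≤ p := hp1.le
  have hy3 : y ^ 2 * (y - 1) ≤ (p : ℝ) ^ 2 * ((p : ℝ) - 1) := by
    apply mul_le_mul
    · exact pow_le_pow_left₀ (by linarith) hy1 2
    · linarith
    · linarith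
    · positivity
  have hry : r * (1 + δ) * y = t := by
    rw [hydef]; field_simp
  -- (1 + δ)^3 (1 - 3 δ) ≤ 1
  have hd : (1 - 3 * δ) * (1 + δ) ^ 3 ≤ 1 := by
    have : (1 - 3 * δ) * (1 + δ) ^ 3 = 1 - (6 * δ ^ 2 + 8 * δ ^ 3 + 3 * δ ^ 4) := by ring
    rw [this]
    have : 0 ≤ 6 * δ ^ 2 + 8 * δ ^ 3 + 3 * δ ^ 4 := by positivity
    linarith
  have hy0 : 0 ≤ y := by linarith
  have h6 : r * (1 - 3 * δ) * t ^ 3 ≤ (s : ℝ) ^ 2 * y ^ 3 := by
    rw [← hry, ← hr2]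
    have : r * (1 - 3 * δ) * (r * (1 + δ) * y) ^ 3 = ((1 - 3 * δ) * (1 + δ) ^ 3) * (r ^ 4 * y ^ 3) := by
      ring
    rw [this]
    have h7 : 0 ≤ r ^ 4 * y ^ 3 := by positivity
    calc _ ≤ 1 * (r ^ 4 * y ^ 3) := mul_le_mul_of_nonneg_right hd h7
      _ = _ := by ring
  have h7 : (s : ℝ) ^ 2 * y ^ 2 ≤ s * t ^ 2 := by
    rw [← hry, ← hr2]
    have : r ^ 2 * (r * (1 + δ) * y) ^ 2 = (1 + δ) ^ 2 * ((r ^ 2) ^ 2 * y ^ 2) := by ring
    rw [this]
    have h8 : 0 ≤ (r ^ 2) ^ 2 * y ^ 2 := by positivity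
    have h9 : 1 ≤ (1 + δ) ^ 2 := by nlinarith
    nlinarith
  have h8 : (s : ℝ) * t ^ 2 ≤ η * t ^ 3 := by
    have h9 : (s : ℝ) ≤ t * η := by rwa [div_le_iff₀ hη0] at hn3
    calc (s : ℝ) * t ^ 2 ≤ t * η * t ^ 2 := mul_le_mul_of_nonneg_right h9 (by positivity)
      _ = _ := by ring
  have h9 : (s : ℝ) ^ 2 * (y ^ 2 * (y - 1)) ≤ (s : ℝ) ^ 2 * ((p : ℝ) ^ 2 * ((p : ℝ) - 1)) :=
    mul_le_mul_of_nonneg_left hy3 (by positivity)
  have h10 : (s : ℝ) ^ 2 * (y ^ 2 * (y - 1)) = (s : ℝ) ^ 2 * y ^ 3 - (s : ℝ) ^ 2 * y ^ 2 := by ring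
  have h11 : r * (1 - 3 * δ) * t ^ 3 = r * t ^ 3 - η * t ^ 3 := by
    rw [← hδ3]; ring
  have h12 : 2 * c * t ^ 3 = r * t ^ 3 - 2 * η * t ^ 3 := by rw [hη]; ring
  linarith

end Pool.Agent.Helper181_LK
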