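import Pool.Agent.Helper181_LK.Local3

/-! The weighted Mantel argument in the neighbourhood of a vertex. -/

set_option autoImplicit false

namespace Pool.Agent.Helper181_LK

open Finset SimpleGraph

section
variable {V : Type*} [Fintype V] [DecidableEq V] (G : SimpleGraph V) [DecidableRel G.Adj]

/-- the indicator of adjacency -/
def ee (u v : V) : ℝ := if G.Adj u v then 1 else 0

/-- the number of ordered adjacent pairs inside the neighbourhood of `x` -/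
noncomputable def MM (x : V) : ℝ :=
  ∑ u ∈ G.neighborFinset x, ∑ v ∈ G.neighborFinset x, ee G u v

/-- `1 - 1 / t` with `t` the number of common neighbours -/
noncomputable def aa (y y' : V) : ℝ :=
  if y = y' then 0 else 1 - 1 / ((G.neighborFinset y ∩ G.neighborFinset y').card : ℝ)

variable {G}

theorem ee_nonneg (u v : V) : 0 ≤ ee G u v := by unfold ee; split_ifs <;> norm_num

theorem ee_comm (u v : V) : ee G u v = ee G v u := by
  unfold ee
  simp only [G.adj_comm u v]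

theorem MM_nonneg (x : V) : 0 ≤ MM G x :=
  sum_nonneg fun _ _ => sum_nonneg fun _ _ => ee_nonneg _ _

theorem aa_comm (y y' : V) : aa G y y' = aa G y' y := by
  unfold aa
  rw [inter_comm]
  by_cases h : y = y'
  · simp [h]
  · simp [h, Ne.symm h]

theorem MM_sq (h : NoL3 G) (x : V) :
    MM G x ^ 2 ≤ (G.neighborFinset x).card * MM G x + 3 * ((G.neighborFinset x).card : ℝ) ^ 3 := by
  set N := G.neighborFinset x with hN
  have h1 : MM G x ^ 2 ≤ (N.card : ℝ) * ∑ u ∈ N, (∑ v ∈ N, ee G u v) ^ 2 := sq_sum_le_card_mul_sum_sq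
  have h2 : ∑ u ∈ N, (∑ v ∈ N, ee G u v) ^ 2 =
      ∑ v ∈ N, ∑ v' ∈ N, ∑ u ∈ N, ee G u v * ee G u v' := by
    have : ∀ u ∈ N, (∑ v ∈ N, ee G u v) ^ 2 = ∑ v ∈ N, ∑ v' ∈ N, ee G u v * ee G u v' := by
      intro u _
      rw [sq, sum_mul_sum]
    rw [sum_congr rfl this, sum_comm]
    apply sum_congr rfl
    intro v _
    rw [sum_comm]
  have h3 : ∀ v ∈ N, ∀ v' ∈ N, ∑ u ∈ N, ee G u v * ee G u v' ≤
      (if v = v' then ∑ u ∈ N, ee G v u else 0) + 3 := by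
    intro v hv v' hv'
    by_cases e : v = v'
    · subst e
      simp only [if_true]
      have : ∑ u ∈ N, ee G u v * ee G u v = ∑ u ∈ N, ee G v u := by
        apply sum_congr rfl
        intro u _
        rw [ee_comm v u]
        unfold ee; split_ifs <;> norm_num
      rw [this]; linarith
    · simp only [e, if_false, zero_add]
      rw [hN, mem_neighborFinset] at hv hv'
      have hk := k34 h e hv.ne.symm hv'.ne.symm
      have : ∑ u ∈ N, ee G u v * ee G u v' =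
          ((G.neighborFinset v ∩ G.neighborFinset v' ∩ G.neighborFinset x).card : ℝ) := by
        rw [card_eq_sum_ones, Nat.cast_sum]
        have : G.neighborFinset v ∩ G.neighborFinset v' ∩ G.neighborFinset x =
            N.filter (fun u => G.Adj v u ∧ G.Adj v' u) := by
          ext u; simp [hN]; tauto
        rw [this, sum_filter]
        apply sum_congr rfl
        intro u _
        unfold ee
        by_cases a1 : G.Adj v u <;> by_cases a2 : G.Adj v' u <;> simp [a1, a2, G.adj_comm u]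
      rw [this]
      exact_mod_cast hk
  have h4 : ∑ v ∈ N, ∑ v' ∈ N, ∑ u ∈ N, ee G u v * ee G u v' ≤ MM G x + 3 * (N.card : ℝ) ^ 2 := by
    calc _ ≤ ∑ v ∈ N, ∑ v' ∈ N, ((if v = v' then ∑ u ∈ N, ee G v u else 0) + 3) :=
          sum_le_sum fun v hv => sum_le_sum fun v' hv' => h3 v hv v' hv'
      _ = ∑ v ∈ N, ((∑ u ∈ N, ee G v u) + 3 * (N.card : ℝ)) := by
          apply sum_congr rfl
          intro v hv
          rw [sum_add_distrib, sum_ite_eq]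
          simp [hv, mul_comm]
      _ = _ := by
          rw [sum_add_distrib]
          simp only [sum_const, nsmul_eq_mul]
          unfold MM
          rw [← hN]; ring
  have hc : (0 : ℝ) ≤ N.card := Nat.cast_nonneg _
  calc MM G x ^ 2 ≤ (N.card : ℝ) * ∑ u ∈ N, (∑ v ∈ N, ee G u v) ^ 2 := h1
    _ ≤ (N.card : ℝ) * (MM G x + 3 * (N.card : ℝ) ^ 2) := by
        rw [h2]; exact mul_le_mul_of_nonneg_left h4 hc
    _ = _ := by ring

theorem card_inter_eq {x y y' : V} (h : G.Adj x y) (h' : G.Adj x y') :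
    (G.neighborFinset y ∩ G.neighborFinset y').card = (S G x y y').card + 1 := by
  unfold S
  rw [card_erase_add_one]
  simp [h.symm, h'.symm]

theorem aa_eq {x y y' : V} (h : G.Adj x y) (h' : G.Adj x y') (hne : y ≠ y') :
    aa G y y' = 1 - 1 / ((S G x y y').card + 1 : ℝ) := by
  unfold aa
  rw [if_neg hne, card_inter_eq h h']
  push_cast; rfl

theorem aa_nonneg {x y y' : V} (h : G.Adj x y) (h' : G.Adj x y') : 0 ≤ aa G y y' := by
  by_cases e : y = y'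
  · simp [aa, e]
  · rw [aa_eq h h' e, sub_nonneg]
    have : (0 : ℝ) ≤ (S G x y y').card := Nat.cast_nonneg _
    rw [div_le_one (by linarith)]
    linarith

theorem aa_le_one {x y y' : V} (h : G.Adj x y) (h' : G.Adj x y') : aa G y y' ≤ 1 := by
  by_cases e : y = y'
  · simp [aa, e]
  · rw [aa_eq h h' e]
    have : (0 : ℝ) ≤ (S G x y y').card := Nat.cast_nonneg _
    have : 0 ≤ 1 / ((S G x y y').card + 1 : ℝ) := by positivity
    linarith

variable (G) in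
/-- first exceptional kind of triples -/
def PA (x y1 y2 y3 : V) : Prop :=
  y2 ≠ y3 ∧ ¬ G.Adj y2 y3 ∧ (∃ z, S G x y1 y2 = {z} ∧ S G x y1 y3 = {z}) ∧
    2 ≤ (S G x y2 y3).card

variable (G) in
/-- second exceptional kind of triples -/
def PB (x y1 y2 y3 : V) : Prop :=
  y1 ≠ y2 ∧ y1 ≠ y3 ∧ y2 ≠ y3 ∧ ∃ p q, p ≠ q ∧ S G x y1 y2 = {p, q} ∧ S G x y1 y3 = {p, q}

open Classical in
variable (G) in
/-- the indicator of the first kind -/
noncomputable def iA (x y1 y2 y3 : V) : ℝ := if PA G x y1 y2 y3 then 1 else 0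

open Classical in
variable (G) in
/-- the indicator of the second kind -/
noncomputable def iB (x y1 y2 y3 : V) : ℝ := if PB G x y1 y2 y3 then 1 else 0

theorem iA_nonneg (x y1 y2 y3 : V) : 0 ≤ iA G x y1 y2 y3 := by unfold iA; split_ifs <;> norm_num

theorem iB_nonneg (x y1 y2 y3 : V) : 0 ≤ iB G x y1 y2 y3 := by unfold iB; split_ifs <;> norm_num

theorem sum_iA (h : NoL3 G) (x y1 y2 : V) (h1 : G.Adj x y1) (h2 : G.Adj x y2) :
    ∑ y3 ∈ G.neighborFinset x, iA G x y1 y2 y3 ≤ 7 := by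
  classical
  by_cases hz : ∃ z, S G x y1 y2 = {z}
  · obtain ⟨z, hz⟩ := hz
    have hz' : z ∈ S G x y1 y2 := by rw [hz]; simp
    rw [mem_S] at hz'
    have := P7 h (x := x) (z := z) (y := y2) hz'.1.symm h2 hz'.2.2.symm
    have h3 : ∑ y3 ∈ G.neighborFinset x, iA G x y1 y2 y3 ≤
        ((univ.filter (fun w => G.Adj x w ∧ G.Adj z w ∧ w ≠ y2 ∧ ¬ G.Adj y2 w ∧
          2 ≤ (S G x y2 w).card)).card : ℝ) := by
      unfold iA
      rw [← sum_filter, sum_const, nsmul_eq_mul, mul_one]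
      norm_cast
      apply card_le_card
      intro w hw
      simp only [mem_filter, mem_neighborFinset, mem_univ, true_and] at hw ⊢
      obtain ⟨a1, a2, a3, ⟨z', e1, e2⟩, a4⟩ := hw
      have : z' = z := by rw [hz] at e1; simpa using e1.symm
      subst this
      have : z' ∈ S G x y1 w := by rw [e2]; simp
      rw [mem_S] at this
      exact ⟨a1, this.2.2.symm, a2.symm, a3, a4⟩
    refine h3.trans ?_
    exact_mod_cast this
  · have : ∀ y3 ∈ G.neighborFinset x, iA G x y1 y2 y3 = 0 := by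
      intro y3 _
      unfold iA
      rw [if_neg]
      rintro ⟨_, _, ⟨z, e, _⟩, _⟩
      exact hz ⟨z, e⟩
    rw [sum_congr rfl this]
    simp

theorem sum_iB (h : NoL3 G) (x y1 y2 : V) (h1 : G.Adj x y1) (h2 : G.Adj x y2) :
    ∑ y3 ∈ G.neighborFinset x, iB G x y1 y2 y3 ≤ 1 := by
  classical
  unfold iB
  rw [← sum_filter, sum_const, nsmul_eq_mul, mul_one]
  norm_cast
  rw [card_le_one]
  intro a ha b hb
  by_contra hab
  simp only [mem_filter, mem_neighborFinset] at ha hb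
  obtain ⟨a1, a2, a3, a4, p, q, hpq, e1, e2⟩ := ha
  obtain ⟨b1, b2, b3, b4, p', q', hpq', e1', e2'⟩ := hb
  have e3 : S G x y1 b = {p, q} := by rw [e2', ← e1', e1]
  have hp1 : p ∈ S G x y1 y2 := by rw [e1]; simp
  have hq1 : q ∈ S G x y1 y2 := by rw [e1]; simp
  have hp2 : p ∈ S G x y1 a := by rw [e2]; simp
  have hq2 : q ∈ S G x y1 a := by rw [e2]; simp
  have hp3 : p ∈ S G x y1 b := by rw [e3]; simp
  have hq3 : q ∈ S G x y1 b := by rw [e3]; simp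
  rw [mem_S] at hp1 hq1 hp2 hq2 hp3 hq3
  exact four_common h (u := x) (v := p) (w := q) (a := y1) (b := y2) (c := a) (d := b)
    hp1.1.symm hq1.1.symm hpq ⟨h1, hp1.2.1.symm, hq1.2.1.symm⟩
    ⟨h2, hp1.2.2.symm, hq1.2.2.symm⟩ ⟨a1, hp2.2.2.symm, hq2.2.2.symm⟩
    ⟨b1, hp3.2.2.symm, hq3.2.2.symm⟩ a2 a3 b3 a4 b4 hab

/-- The pointwise inequality. -/
theorem pointwise (h : NoL3 G) {x y1 y2 y3 : V} (h1 : G.Adj x y1) (h2 : G.Adj x y2)
    (h3 : G.Adj x y3) :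
    aa G y1 y2 * aa G y1 y3 + aa G y1 y2 * aa G y2 y3 + aa G y1 y3 * aa G y2 y3 ≤
      (aa G y1 y2 + aa G y1 y3 + aa G y2 y3) / 2 +
      3 * (ee G y1 y2 + ee G y1 y3 + ee G y2 y3 + iB G x y1 y2 y3 +
        iA G x y1 y2 y3 + iA G x y2 y1 y3 + iA G x y3 y1 y2) := by
  have p12 := aa_nonneg (G := G) h1 h2
  have p13 := aa_nonneg (G := G) h1 h3
  have p23 := aa_nonneg (G := G) h2 h3
  have q12 := aa_le_one (G := G) h1 h2
  have q13 := aa_le_one (G := G) h1 h3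
  have q23 := aa_le_one (G := G) h2 h3
  have r1 := ee_nonneg (G := G) y1 y2
  have r2 := ee_nonneg (G := G) y1 y3
  have r3 := ee_nonneg (G := G) y2 y3
  have r4 := iB_nonneg (G := G) x y1 y2 y3
  have r5 := iA_nonneg (G := G) x y1 y2 y3
  have r6 := iA_nonneg (G := G) x y2 y1 y3
  have r7 := iA_nonneg (G := G) x y3 y1 y2
  -- if the exceptional sum is at least one
  have big : 1 ≤ ee G y1 y2 + ee G y1 y3 + ee G y2 y3 + iB G x y1 y2 y3 +
        iA G x y1 y2 y3 + iA G x y2 y1 y3 + iA G x y3 y1 y2 →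
      aa G y1 y2 * aa G y1 y3 + aa G y1 y2 * aa G y2 y3 + aa G y1 y3 * aa G y2 y3 ≤
      (aa G y1 y2 + aa G y1 y3 + aa G y2 y3) / 2 +
      3 * (ee G y1 y2 + ee G y1 y3 + ee G y2 y3 + iB G x y1 y2 y3 +
        iA G x y1 y2 y3 + iA G x y2 y1 y3 + iA G x y3 y1 y2) := by
    intro hb
    nlinarith [mul_le_one₀ q12 p13 q13, mul_le_one₀ q12 p23 q23, mul_le_one₀ q13 p23 q23]
  have small : aa G y1 y2 * aa G y1 y3 + aa G y1 y2 * aa G y2 y3 + aa G y1 y3 * aa G y2 y3 ≤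
      (aa G y1 y2 + aa G y1 y3 + aa G y2 y3) / 2 →
      aa G y1 y2 * aa G y1 y3 + aa G y1 y2 * aa G y2 y3 + aa G y1 y3 * aa G y2 y3 ≤
      (aa G y1 y2 + aa G y1 y3 + aa G y2 y3) / 2 +
      3 * (ee G y1 y2 + ee G y1 y3 + ee G y2 y3 + iB G x y1 y2 y3 +
        iA G x y1 y2 y3 + iA G x y2 y1 y3 + iA G x y3 y1 y2) := by
    intro hs; linarith
  -- zero cases
  by_cases z12 : aa G y1 y2 = 0
  · apply small; rw [z12]; nlinarith [mul_le_mul_of_nonneg_left q23 p13, mul_nonneg p13 p23]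
  by_cases z13 : aa G y1 y3 = 0
  · apply small; rw [z13]; nlinarith [mul_nonneg p12 p23]
  by_cases z23 : aa G y2 y3 = 0
  · apply small; rw [z23]; nlinarith [mul_nonneg p12 p13]
  have d12 : y1 ≠ y2 := by rintro rfl; exact z12 (by simp [aa])
  have d13 : y1 ≠ y3 := by rintro rfl; exact z13 (by simp [aa])
  have d23 : y2 ≠ y3 := by rintro rfl; exact z23 (by simp [aa])
  -- adjacency cases
  by_cases n12 : G.Adj y1 y2
  · apply big; have : ee G y1 y2 = 1 := by simp [ee, n12]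
    linarith
  by_cases n13 : G.Adj y1 y3
  · apply big; have : ee G y1 y3 = 1 := by simp [ee, n13]
    linarith
  by_cases n23 : G.Adj y2 y3
  · apply big; have : ee G y2 y3 = 1 := by simp [ee, n23]
    linarith
  have ne_of : ∀ {u v : V}, G.Adj x u → G.Adj x v → u ≠ v → aa G u v ≠ 0 → (S G x u v).Nonempty := by
    intro u v hu hv huv hne
    rw [nonempty_iff_ne_empty]
    intro he
    apply hne
    rw [aa_eq hu hv huv, he]
    simp
  have e12 := ne_of h1 h2 d12 z12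
  have e13 := ne_of h1 h3 d13 z13
  have e23 := ne_of h2 h3 d23 z23
  by_cases c23 : 2 ≤ (S G x y2 y3).card
  · rcases alt3 h h1 h2 h3 d12 d13 d23 n12 n13 n23 e12 e13 c23 with ⟨z, f1, f2⟩ | ⟨p, q, hpq, f1, f2, _⟩
    · apply big
      have : iA G x y1 y2 y3 = 1 := by
        unfold iA; rw [if_pos]; exact ⟨d23, n23, ⟨z, f1, f2⟩, c23⟩
      linarith
    · apply big
      have : iB G x y1 y2 y3 = 1 := by
        unfold iB; rw [if_pos]; exact ⟨d12, d13, d23, p, q, hpq, f1, f2⟩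
      linarith
  by_cases c13 : 2 ≤ (S G x y1 y3).card
  · rcases alt3 h (y1 := y2) (y2 := y1) (y3 := y3) h2 h1 h3 d12.symm d23 d13
      (fun e => n12 e.symm) n23 n13 (by rw [S_comm]; exact e12) e23 c13 with
        ⟨z, f1, f2⟩ | ⟨p, q, hpq, f1, f2, f3⟩
    · apply big
      have : iA G x y2 y1 y3 = 1 := by
        unfold iA; rw [if_pos]; exact ⟨d13, n13, ⟨z, f1, f2⟩, c13⟩
      linarith
    · apply big
      have : iB G x y1 y2 y3 = 1 := by
        unfold iB; rw [if_pos]; exact ⟨d12, d13, d23, p, q, hpq, by rw [S_comm, f1], f3⟩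
      linarith
  by_cases c12 : 2 ≤ (S G x y1 y2).card
  · rcases alt3 h (y1 := y3) (y2 := y1) (y3 := y2) h3 h1 h2 d13.symm d23.symm d12
      (fun e => n13 e.symm) (fun e => n23 e.symm) n12 (by rw [S_comm]; exact e13)
      (by rw [S_comm]; exact e23) c12 with
        ⟨z, f1, f2⟩ | ⟨p, q, hpq, f1, f2, f3⟩
    · apply big
      have : iA G x y3 y1 y2 = 1 := by
        unfold iA; rw [if_pos]; exact ⟨d12, n12, ⟨z, f1, f2⟩, c12⟩
      linarith
    · apply big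
      have : iB G x y1 y2 y3 = 1 := by
        unfold iB; rw [if_pos]; exact ⟨d12, d13, d23, p, q, hpq, f3, by rw [S_comm, f1]⟩
      linarith
  -- all equal to one
  apply small
  have c1 : ∀ {s : Finset V}, s.Nonempty → ¬ 2 ≤ s.card → s.card = 1 := by
    intro s hs hc
    have := hs.card_pos
    omega
  have v12 : aa G y1 y2 = 1 / 2 := by
    rw [aa_eq h1 h2 d12, c1 e12 c12]; norm_num
  have v13 : aa G y1 y3 = 1 / 2 := by
    rw [aa_eq h1 h3 d13, c1 e13 c13]; norm_num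
  have v23 : aa G y2 y3 = 1 / 2 := by
    rw [aa_eq h2 h3 d23, c1 e23 c23]; norm_num
  rw [v12, v13, v23]; norm_num

/-- the total weight in the neighbourhood of `x` -/
noncomputable def AA (G : SimpleGraph V) [DecidableRel G.Adj] (x : V) : ℝ :=
  ∑ y ∈ G.neighborFinset x, ∑ y' ∈ G.neighborFinset x, aa G y y'

theorem AA_nonneg (x : V) : 0 ≤ AA G x := by
  unfold AA
  refine sum_nonneg fun y hy => sum_nonneg fun y' hy' => ?_
  rw [mem_neighborFinset] at hy hy'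
  exact aa_nonneg hy hy'

theorem AA_sq (h : NoL3 G) (x : V) :
    AA G x ^ 2 ≤ ((G.neighborFinset x).card : ℝ) ^ 2 / 2 * AA G x +
      3 * MM G x * ((G.neighborFinset x).card : ℝ) ^ 2 +
      22 * ((G.neighborFinset x).card : ℝ) ^ 3 := by
  set N := G.neighborFinset x with hN
  set D : ℝ := (N.card : ℝ) with hD
  have hD0 : 0 ≤ D := Nat.cast_nonneg _
  have memN : ∀ y, y ∈ N ↔ G.Adj x y := by intro y; simp [hN]
  -- sum of the pointwise inequality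
  have h1 : ∑ y1 ∈ N, ∑ y2 ∈ N, ∑ y3 ∈ N,
      (aa G y1 y2 * aa G y1 y3 + aa G y1 y2 * aa G y2 y3 + aa G y1 y3 * aa G y2 y3) ≤
      ∑ y1 ∈ N, ∑ y2 ∈ N, ∑ y3 ∈ N, ((aa G y1 y2 + aa G y1 y3 + aa G y2 y3) / 2 +
      3 * (ee G y1 y2 + ee G y1 y3 + ee G y2 y3 + iB G x y1 y2 y3 +
        iA G x y1 y2 y3 + iA G x y2 y1 y3 + iA G x y3 y1 y2)) :=
    sum_le_sum fun y1 a1 => sum_le_sum fun y2 a2 => sum_le_sum fun y3 a3 =>
      pointwise h ((memN _).1 a1) ((memN _).1 a2) ((memN _).1 a3)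
  -- left side
  have L1 : ∑ y1 ∈ N, ∑ y2 ∈ N, ∑ y3 ∈ N, aa G y1 y2 * aa G y1 y3 =
      ∑ y ∈ N, (∑ y' ∈ N, aa G y y') ^ 2 := by
    apply sum_congr rfl
    intro y1 _
    rw [sq, sum_mul_sum]
  have L2 : ∑ y1 ∈ N, ∑ y2 ∈ N, ∑ y3 ∈ N, aa G y1 y2 * aa G y2 y3 =
      ∑ y ∈ N, (∑ y' ∈ N, aa G y y') ^ 2 := by
    rw [sum_comm]
    apply sum_congr rfl
    intro y1 _
    rw [sq, sum_mul_sum]
    apply sum_congr rfl
    intro y2 _
    rw [aa_comm y1 y2]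
  have L3 : ∑ y1 ∈ N, ∑ y2 ∈ N, ∑ y3 ∈ N, aa G y1 y3 * aa G y2 y3 =
      ∑ y ∈ N, (∑ y' ∈ N, aa G y y') ^ 2 := by
    have : ∀ y1 ∈ N, ∑ y2 ∈ N, ∑ y3 ∈ N, aa G y1 y3 * aa G y2 y3 =
        ∑ y3 ∈ N, ∑ y2 ∈ N, aa G y1 y3 * aa G y2 y3 := fun y1 _ => sum_comm
    rw [sum_congr rfl this, sum_comm]
    apply sum_congr rfl
    intro y3 _
    rw [sq, sum_mul_sum]
    apply sum_congr rfl
    intro y1 _
    apply sum_congr rfl
    intro y2 _
    rw [aa_comm y1 y3, aa_comm y2 y3]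
  -- right side
  have R1 : ∑ y1 ∈ N, ∑ y2 ∈ N, ∑ _y3 ∈ N, aa G y1 y2 = D * AA G x := by
    simp only [sum_const, nsmul_eq_mul]
    unfold AA
    rw [mul_sum]
    apply sum_congr rfl
    intro y1 _
    rw [mul_sum]
  have R2 : ∑ y1 ∈ N, ∑ _y2 ∈ N, ∑ y3 ∈ N, aa G y1 y3 = D * AA G x := by
    simp only [sum_const, nsmul_eq_mul]
    unfold AA
    rw [mul_sum]
  have R3 : ∑ _y1 ∈ N, ∑ y2 ∈ N, ∑ y3 ∈ N, aa G y2 y3 = D * AA G x := by
    simp only [sum_const, nsmul_eq_mul]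
    rfl
  have E1 : ∑ y1 ∈ N, ∑ y2 ∈ N, ∑ _y3 ∈ N, ee G y1 y2 = D * MM G x := by
    simp only [sum_const, nsmul_eq_mul]
    unfold MM
    rw [mul_sum]
    apply sum_congr rfl
    intro y1 _
    rw [mul_sum]
  have E2 : ∑ y1 ∈ N, ∑ _y2 ∈ N, ∑ y3 ∈ N, ee G y1 y3 = D * MM G x := by
    simp only [sum_const, nsmul_eq_mul]
    unfold MM
    rw [mul_sum]
  have E3 : ∑ _y1 ∈ N, ∑ y2 ∈ N, ∑ y3 ∈ N, ee G y2 y3 = D * MM G x := by
    simp only [sum_const, nsmul_eq_mul]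
    rfl
  have B1 : ∑ y1 ∈ N, ∑ y2 ∈ N, ∑ y3 ∈ N, iB G x y1 y2 y3 ≤ D ^ 2 := by
    calc _ ≤ ∑ _y1 ∈ N, ∑ _y2 ∈ N, (1 : ℝ) := sum_le_sum fun y1 a1 => sum_le_sum fun y2 a2 =>
          sum_iB h x y1 y2 ((memN _).1 a1) ((memN _).1 a2)
      _ = _ := by simp only [sum_const, nsmul_eq_mul]; ring
  have A1 : ∑ y1 ∈ N, ∑ y2 ∈ N, ∑ y3 ∈ N, iA G x y1 y2 y3 ≤ 7 * D ^ 2 := by
    calc _ ≤ ∑ _y1 ∈ N, ∑ _y2 ∈ N, (7 : ℝ) := sum_le_sum fun y1 a1 => sum_le_sum fun y2 a2 =>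
          sum_iA h x y1 y2 ((memN _).1 a1) ((memN _).1 a2)
      _ = _ := by simp only [sum_const, nsmul_eq_mul]; ring
  have A2 : ∑ y1 ∈ N, ∑ y2 ∈ N, ∑ y3 ∈ N, iA G x y2 y1 y3 ≤ 7 * D ^ 2 := by
    rw [sum_comm]; exact A1
  have A3 : ∑ y1 ∈ N, ∑ y2 ∈ N, ∑ y3 ∈ N, iA G x y3 y1 y2 ≤ 7 * D ^ 2 := by
    have : ∀ y1 ∈ N, ∑ y2 ∈ N, ∑ y3 ∈ N, iA G x y3 y1 y2 =
        ∑ y3 ∈ N, ∑ y2 ∈ N, iA G x y3 y1 y2 := fun y1 _ => sum_comm
    rw [sum_congr rfl this, sum_comm]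
    exact A1
  have hL : ∑ y1 ∈ N, ∑ y2 ∈ N, ∑ y3 ∈ N,
      (aa G y1 y2 * aa G y1 y3 + aa G y1 y2 * aa G y2 y3 + aa G y1 y3 * aa G y2 y3) =
      3 * ∑ y ∈ N, (∑ y' ∈ N, aa G y y') ^ 2 := by
    simp only [sum_add_distrib]
    rw [L1, L2, L3]; ring
  have hR : ∑ y1 ∈ N, ∑ y2 ∈ N, ∑ y3 ∈ N, ((aa G y1 y2 + aa G y1 y3 + aa G y2 y3) / 2 +
      3 * (ee G y1 y2 + ee G y1 y3 + ee G y2 y3 + iB G x y1 y2 y3 +
        iA G x y1 y2 y3 + iA G x y2 y1 y3 + iA G x y3 y1 y2)) =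
      (D * AA G x + D * AA G x + D * AA G x) / 2 + 3 * (D * MM G x + D * MM G x + D * MM G x +
      ∑ y1 ∈ N, ∑ y2 ∈ N, ∑ y3 ∈ N, iB G x y1 y2 y3 +
      ∑ y1 ∈ N, ∑ y2 ∈ N, ∑ y3 ∈ N, iA G x y1 y2 y3 +
      ∑ y1 ∈ N, ∑ y2 ∈ N, ∑ y3 ∈ N, iA G x y2 y1 y3 +
      ∑ y1 ∈ N, ∑ y2 ∈ N, ∑ y3 ∈ N, iA G x y3 y1 y2) := by
    simp only [sum_add_distrib, ← sum_div, ← mul_sum]
    rw [R1, R2, R3, E1, E2, E3]
  rw [hL, hR] at h1
  have CS : AA G x ^ 2 ≤ D * ∑ y ∈ N, (∑ y' ∈ N, aa G y y') ^ 2 := sq_sum_le_card_mul_sum_sq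
  have h2 : ∑ y ∈ N, (∑ y' ∈ N, aa G y y') ^ 2 ≤ D * AA G x / 2 + 3 * (D * MM G x) + 22 * D ^ 2 := by
    linarith
  calc AA G x ^ 2 ≤ D * ∑ y ∈ N, (∑ y' ∈ N, aa G y y') ^ 2 := CS
    _ ≤ D * (D * AA G x / 2 + 3 * (D * MM G x) + 22 * D ^ 2) :=
        mul_le_mul_of_nonneg_left h2 hD0
    _ = _ := by ring

/-- The local inequality. -/
theorem AA_le (h : NoL3 G) (x : V) :
    AA G x ≤ ((G.neighborFinset x).card : ℝ) ^ 2 / 2 + 6 * MM G x +
      44 * (G.neighborFinset x).card := by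
  have h1 := AA_sq h x
  have h2 := AA_nonneg (G := G) x
  have h3 := MM_nonneg (G := G) x
  set D : ℝ := ((G.neighborFinset x).card : ℝ) with hD
  have hD0 : 0 ≤ D := Nat.cast_nonneg _
  by_contra hcon
  push Not at hcon
  have h4 : 0 ≤ 6 * MM G x + 44 * D := by positivity
  have h5 : 0 < AA G x := by nlinarith [sq_nonneg D]
  -- AA (AA - D²/2) > (D²/2)(6 M + 44 D)
  have h6 : AA G x * (AA G x - D ^ 2 / 2) ≤ 3 * MM G x * D ^ 2 + 22 * D ^ 3 := by nlinarith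
  have h7 : 6 * MM G x + 44 * D < AA G x - D ^ 2 / 2 := by linarith
  have h8 : D ^ 2 / 2 ≤ AA G x := by linarith
  have h9 : D ^ 2 / 2 * (6 * MM G x + 44 * D) ≤ AA G x * (6 * MM G x + 44 * D) :=
    mul_le_mul_of_nonneg_right h8 h4
  have h10 : AA G x * (6 * MM G x + 44 * D) < AA G x * (AA G x - D ^ 2 / 2) :=
    mul_lt_mul_of_pos_left h7 h5
  nlinarith

end

end Pool.Agent.Helper181_LK
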